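import Pool.Agent.Helper80.KC.Goals

/-!
# Project KC (MP_eaa1a7_co), packet C2A: from configurations to axes
-/

set_option autoImplicit false

open Module

namespace Pool.Agent.Helper35.KC

open Pool.Agent.Helper80.KC

theorem goalC2A : G_C2A := by
  intro k j hC
  obtain ⟨N, p, f, h⟩ := hC
  have hmem : ∀ i x, x ∈ AffineSubspace.mk' ((2 : ℝ) • p i) (N i)ᗮ →
      ∀ w ∈ N i, inner ℝ x w = 2 * inner ℝ (p i) w := by
    intro i x hx w hw
    rw [AffineSubspace.mem_mk'] at hx
    have h1 : inner ℝ w (x -ᵥ (2 : ℝ) • p i) = 0 := (Submodule.mem_orthogonal _ _).1 hx w hw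
    rw [vsub_eq_sub, inner_sub_right, inner_smul_right] at h1
    rw [real_inner_comm, real_inner_comm w (p i)]
    linarith
  refine ⟨fun i => AffineSubspace.mk' ((2 : ℝ) • p i) (N i)ᗮ, ?_, ?_⟩
  · intro i
    refine ⟨⟨_, AffineSubspace.self_mem_mk' _ _⟩, ?_, ?_⟩
    · rw [AffineSubspace.direction_mk']
      have h1 := Submodule.finrank_add_finrank_orthogonal (N i)
      rw [h.dim i, finrank_euclideanSpace_fin] at h1
      omega
    · apply le_antisymm
      · refine (Metric.infDist_le_dist_of_mem (AffineSubspace.self_mem_mk' ((2 : ℝ) • p i)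
          (N i)ᗮ)).trans (le_of_eq ?_)
        rw [dist_zero_left, norm_smul, h.pn i, mul_one]
        norm_num
      · rw [Metric.le_infDist ⟨_, AffineSubspace.self_mem_mk' _ _⟩]
        intro x hx
        have h1 := hmem i x hx (p i) (h.pm i)
        rw [real_inner_self_eq_norm_sq, h.pn i] at h1
        have h2 := real_inner_le_norm x (p i)
        rw [h1, h.pn i] at h2
        rw [dist_zero_left]
        linarith
  · intro i i' hii x hx y hy
    have h1 := hmem i x hx (f i i') (h.fl i i' hii)
    have h2 := hmem i' y hy (f i i') (h.fr i i' hii)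
    have h3 := h.sep i i' hii
    have h4 := abs_real_inner_le_norm (x - y) (f i i')
    rw [h.fn i i' hii, mul_one, inner_sub_left, h1, h2, ← mul_sub, ← inner_sub_left,
      abs_mul, abs_two] at h4
    rw [dist_eq_norm]
    linarith

end Pool.Agent.Helper35.KC
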