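import Pool.Agent.Helper53.KC.Goals

/-!
# KC-CONN: a matroid which is not `k`-connected has many dependent sets
-/

namespace Pool.Agent.Helper35.KC

open Finset Pool.Agent.Helper53.KC

variable {n : ℕ}

/-- an independent set has at most `x` elements in a set of rank `x` -/
theorem indep_inter_le {M : Matroid (Fin n)} {X' W : Finset (Fin n)} {x : ℕ}
    (hI : M.Indep (X' : Set (Fin n))) (hx : M.eRk (W : Set (Fin n)) = x) : (X' ∩ W).card ≤ x := by
  have h1 : M.Indep ((X' ∩ W : Finset (Fin n)) : Set (Fin n)) := by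
    apply hI.subset
    exact_mod_cast (inter_subset_left : X' ∩ W ⊆ X')
  have h2 := h1.encard_le_eRk_of_subset (X := (W : Set (Fin n)))
    (by exact_mod_cast (inter_subset_right : X' ∩ W ⊆ W))
  rw [hx, Set.encard_coe_eq_coe_finsetCard] at h2
  exact_mod_cast h2

/-- the main case, for one side -/
theorem side {r j k x y : ℕ} {M : Matroid (Fin n)} {X Y : Finset (Fin n)}
    (hXY : X ∪ Y = univ) (hd : Disjoint X Y) (hx : M.eRk (X : Set (Fin n)) = x)
    (hy : M.eRk (Y : Set (Fin n)) = y) (hj : 1 ≤ j) (hjk : j < k)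
    (hXj : j ≤ X.card) (hxy : x + y + 1 ≤ r + j) (hyr : y ≤ r) :
    DS r X (r - y) j ⊆ NB r M ∧ (X.card ≤ j + 1 →
      (∃ C : Finset (Fin n), 1 ≤ C.card ∧ C.card ≤ k ∧ DC r C ⊆ NB r M) ∨
      (∃ C : Finset (Fin n), 1 ≤ C.card ∧ C.card ≤ k ∧ DD r C ⊆ NB r M)) := by
  classical
  have hDS : DS r X (r - y) j ⊆ NB r M := by
    intro X' hX'
    rw [DS, mem_filter] at hX'
    rw [NB, mem_filter]
    refine ⟨hX'.1, fun hI => ?_⟩
    have h1 := indep_inter_le hI hx
    have h2 := indep_inter_le hI hy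
    have h3 : X'.card = r := by
      have := hX'.1
      rw [V, mem_powersetCard] at this
      exact this.2
    have h4 : (X' ∩ X).card + (X' ∩ Y).card = X'.card := by
      rw [← card_union_of_disjoint (hd.mono inter_subset_right inter_subset_right),
        ← inter_union_distrib_left, hXY, inter_univ]
    rcases hX'.2 with h5 | h5 <;> omega
  refine ⟨hDS, ?_⟩
  intro hc
  rcases Nat.eq_zero_or_pos (r - y) with ha | ha
  · left
    refine ⟨X, by omega, by omega, ?_⟩
    intro X' hX'
    apply hDS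
    rw [DC, mem_filter] at hX'
    rw [DS, mem_filter]
    refine ⟨hX'.1, Or.inr ?_⟩
    rw [inter_eq_right.2 hX'.2, ha]
    omega
  · right
    refine ⟨X, by omega, by omega, ?_⟩
    intro X' hX'
    apply hDS
    rw [DD, mem_filter] at hX'
    rw [DS, mem_filter]
    refine ⟨hX'.1, Or.inl ?_⟩
    have h0 : X' ∩ X = ∅ := by
      rw [inter_comm]
      exact disjoint_iff_inter_eq_empty.1 hX'.2
    rw [h0, card_empty]
    exact ha

theorem conn : ConnStmt := by
  classical
  intro n r k M hM hnc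
  unfold KConn at hnc
  push Not at hnc
  obtain ⟨j, hjk, X₀, Y₀, hU, hD, hX, hY, hle⟩ := hnc
  obtain ⟨hE, hr⟩ := hM
  obtain ⟨X, rfl⟩ : ∃ X : Finset (Fin n), (X : Set (Fin n)) = X₀ :=
    ⟨(Set.toFinite X₀).toFinset, Set.Finite.coe_toFinset _⟩
  obtain ⟨Y, rfl⟩ : ∃ Y : Finset (Fin n), (Y : Set (Fin n)) = Y₀ :=
    ⟨(Set.toFinite Y₀).toFinset, Set.Finite.coe_toFinset _⟩
  have hXY : X ∪ Y = univ := by
    rw [hE] at hU
    exact_mod_cast hU
  have hd : Disjoint X Y := by exact_mod_cast hD
  rw [Set.encard_coe_eq_coe_finsetCard] at hX hY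
  have hX' : j ≤ X.card := by exact_mod_cast hX
  have hY' : j ≤ Y.card := by exact_mod_cast hY
  have hxt : M.eRk (X : Set (Fin n)) ≠ ⊤ := by
    have h := M.eRk_le_eRank (X : Set (Fin n))
    rw [hr] at h
    exact ne_top_of_le_ne_top (ENat.natCast_ne_top r) h
  have hyt : M.eRk (Y : Set (Fin n)) ≠ ⊤ := by
    have h := M.eRk_le_eRank (Y : Set (Fin n))
    rw [hr] at h
    exact ne_top_of_le_ne_top (ENat.natCast_ne_top r) h
  obtain ⟨x, hx⟩ := ENat.ne_top_iff_exists.1 hxt
  obtain ⟨y, hy⟩ := ENat.ne_top_iff_exists.1 hyt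
  have hxr : x ≤ r := by
    have h := M.eRk_le_eRank (X : Set (Fin n))
    rw [hr, ← hx] at h
    exact_mod_cast h
  have hyr : y ≤ r := by
    have h := M.eRk_le_eRank (Y : Set (Fin n))
    rw [hr, ← hy] at h
    exact_mod_cast h
  have hxy : x + y + 1 ≤ r + j := by
    rw [hr, ← hx, ← hy] at hle
    exact_mod_cast hle
  have hsub : r ≤ x + y := by
    have h := M.eRk_union_le_eRk_add_eRk (X : Set (Fin n)) (Y : Set (Fin n))
    rw [hU, M.eRk_ground, hr, ← hx, ← hy] at h
    exact_mod_cast h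
  have hj : 1 ≤ j := by omega
  obtain ⟨s1, s2⟩ := side (k := k) hXY hd hx.symm hy.symm hj hjk hX' hxy hyr
  obtain ⟨t1, t2⟩ := side (k := k) (by rw [union_comm]; exact hXY) hd.symm hy.symm hx.symm hj hjk hY'
    (by omega) hxr
  rcases Nat.lt_or_ge (j + 1) X.card with hc | hc
  · rcases Nat.lt_or_ge (j + 1) Y.card with hc' | hc'
    · right; right
      refine ⟨j, r - y, X, hjk, by omega, by omega, ?_, s1⟩
      have hYc : Xᶜ = Y := by
        ext z
        rw [mem_compl]
        constructor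
        · intro hz
          have := mem_univ z
          rw [← hXY, mem_union] at this
          exact this.resolve_left hz
        · intro hz hz'
          exact disjoint_left.1 hd hz' hz
      rw [hYc]; omega
    · rcases t2 hc' with h | h
      · exact Or.inl h
      · exact Or.inr (Or.inl h)
  · rcases s2 hc with h | h
    · exact Or.inl h
    · exact Or.inr (Or.inl h)

end Pool.Agent.Helper35.KC
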