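import Pool.Agent.Helper80.KC.Goals

/-!
# Project KC (MP_eaa1a7_co), packet EMB: moving a configuration by a linear isometry
-/

set_option autoImplicit false

open Module

namespace Pool.Agent.Helper35.KC

open Pool.Agent.Helper80.KC

theorem goalEMB : G_EMB := by
  intro k V W _ _ _ _ T hC
  obtain ⟨N, p, f, h⟩ := hC
  refine ⟨fun i => (N i).map T.toLinearMap, fun i => T (p i), fun i j => T (f i j), ?_⟩
  constructor
  · intro i
    rw [← h.dim i]
    exact (Submodule.equivMapOfInjective T.toLinearMap T.injective (N i)).finrank_eq.symm
  · intro i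
    exact Submodule.mem_map_of_mem (h.pm i)
  · intro i
    rw [T.norm_map]
    exact h.pn i
  · intro i j hij
    exact Submodule.mem_map_of_mem (h.fl i j hij)
  · intro i j hij
    exact Submodule.mem_map_of_mem (h.fr i j hij)
  · intro i j hij
    rw [T.norm_map]
    exact h.fn i j hij
  · intro i j hij
    rw [← map_sub, T.inner_map_map]
    exact h.sep i j hij

end Pool.Agent.Helper35.KC
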