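import Pool.Agent.Helper80.KC.Goals

/-!
# Project KC (MP_eaa1a7_co), packet LOW: small dimension
-/

set_option autoImplicit false

open Module

namespace Pool.Agent.Helper35.KC

open Pool.Agent.Helper80.KC

theorem goalLOW (hE : G_EMB) : G_LOW := by
  intro k m V _ _ _ hm hC
  let b := stdOrthonormalBasis ℝ V
  let g := EuclideanSpace.basisFun (Fin m) ℝ
  let f : V →ₗ[ℝ] E m := b.toBasis.constr ℝ (fun i => g (Fin.castLE hm i))
  have hf : Orthonormal ℝ (f ∘ b.toBasis) := by
    have h1 : f ∘ b.toBasis = g ∘ (Fin.castLE hm) := by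
      funext i
      exact b.toBasis.constr_basis ℝ _ i
    rw [h1]
    exact g.orthonormal.comp _ (Fin.castLE_injective hm)
  have hb : Orthonormal ℝ b.toBasis := by
    rw [b.coe_toBasis]
    exact b.orthonormal
  exact hE k V (E m) (f.isometryOfOrthonormal hb hf) hC

end Pool.Agent.Helper35.KC
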