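import Pool.Agent.Helper80.KC.Goals

/-!
# Project KC (MP_eaa1a7_co), packet MET: heights
-/

set_option autoImplicit false

open Module

namespace Pool.Agent.Helper35.KC

open Pool.Agent.Helper80.KC

theorem unit_in_line {V : Type} [NormedAddCommGroup V] [InnerProductSpace ℝ V] {a b : V}
    (ha : ‖a‖ = 1) (hb : ‖b‖ = 1) (h : b ∈ Submodule.span ℝ {a}) : b = a ∨ b = -a := by
  obtain ⟨t, rfl⟩ := Submodule.mem_span_singleton.1 h
  rw [norm_smul, ha, mul_one, Real.norm_eq_abs] at hb
  rcases (abs_eq (by norm_num)).1 hb with h1 | h1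
  · left
    rw [h1, one_smul]
  · right
    rw [h1, neg_one_smul]

theorem goalMET : G_MET := by
  intro k V _ _ N p f hc i j l hij ht
  obtain ⟨hli, hlj, hcap⟩ := ht
  set a : V := f i j with ha
  have han : ‖a‖ = 1 := hc.fn i j hij
  have hil : f i l = a ∨ f i l = -a := by
    refine unit_in_line han (hc.fn i l hli.symm) ?_
    rw [← hcap]
    exact ⟨hc.fr i l hli.symm, (le_sup_left : N i ≤ N i ⊔ N j) (hc.fl i l hli.symm)⟩
  have hjl : f j l = a ∨ f j l = -a := by
    refine unit_in_line han (hc.fn j l hlj.symm) ?_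
    rw [← hcap]
    exact ⟨hc.fr j l hlj.symm, (le_sup_right : N j ≤ N i ⊔ N j) (hc.fl j l hlj.symm)⟩
  have hb : ∀ t : Fin k, |inner ℝ (p t) a| ≤ 1 := by
    intro t
    have h1 := abs_real_inner_le_norm (p t) a
    rwa [hc.pn t, han, mul_one] at h1
  have hone : ∀ t : Fin k, inner ℝ (p t) a = 1 → p t = a := fun t h =>
    (inner_eq_one_iff_of_norm_eq_one (hc.pn t) han).1 h
  have hneg : ∀ t : Fin k, inner ℝ (p t) a = -1 → p t = -a := by
    intro t h
    refine (inner_eq_one_iff_of_norm_eq_one (𝕜 := ℝ) (hc.pn t) (by rw [norm_neg]; exact han)).1 ?_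
    rw [inner_neg_right, h, neg_neg]
  have s1 : 1 ≤ |inner ℝ (p i) a - inner ℝ (p j) a| := by
    have h1 := hc.sep i j hij
    rwa [inner_sub_left] at h1
  have s2 : 1 ≤ |inner ℝ (p i) a - inner ℝ (p l) a| := by
    have h1 := hc.sep i l hli.symm
    rw [inner_sub_left] at h1
    rcases hil with h | h
    · rwa [h] at h1
    · rw [h, inner_neg_right, inner_neg_right] at h1
      rw [← abs_neg]
      refine h1.trans (le_of_eq ?_)
      congr 1
      ring
  have s3 : 1 ≤ |inner ℝ (p j) a - inner ℝ (p l) a| := by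
    have h1 := hc.sep j l hlj.symm
    rw [inner_sub_left] at h1
    rcases hjl with h | h
    · rwa [h] at h1
    · rw [h, inner_neg_right, inner_neg_right] at h1
      rw [← abs_neg]
      refine h1.trans (le_of_eq ?_)
      congr 1
      ring
  have b1 := abs_le.1 (hb i)
  have b2 := abs_le.1 (hb j)
  have b3 := abs_le.1 (hb l)
  have key : ∀ x y z : Fin k, inner ℝ (p x) a = 1 → inner ℝ (p y) a = -1 →
      inner ℝ (p z) a = 0 → ({x, y, z} : Set (Fin k)) = {i, j, l} → x ≠ y → y ≠ z → x ≠ z →
      ∃ u v w : Fin k, ({u, v, w} : Set (Fin k)) = {i, j, l} ∧ u ≠ v ∧ v ≠ w ∧ u ≠ w ∧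
      p u = a ∧ p v = -a ∧ inner ℝ (p w) a = 0 := by
    intro x y z hx hy hz hs h1 h2 h3
    exact ⟨x, y, z, hs, h1, h2, h3, hone x hx, hneg y hy, hz⟩
  rcases le_abs.1 s1 with t1 | t1 <;> rcases le_abs.1 s2 with t2 | t2 <;>
    rcases le_abs.1 s3 with t3 | t3
  · refine key i l j (by linarith) (by linarith) (by linarith) ?_ hli.symm hlj hij
    ext t
    simp only [Set.mem_insert_iff, Set.mem_singleton_iff]
    tauto
  · refine key i j l (by linarith) (by linarith) (by linarith) rfl hij hlj.symm hli.symm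
  · exfalso
    linarith
  · refine key l j i (by linarith) (by linarith) (by linarith) ?_ hlj hij.symm hli
    ext t
    simp only [Set.mem_insert_iff, Set.mem_singleton_iff]
    tauto
  · refine key j l i (by linarith) (by linarith) (by linarith) ?_ hlj.symm hli hij.symm
    ext t
    simp only [Set.mem_insert_iff, Set.mem_singleton_iff]
    tauto
  · exfalso
    linarith
  · refine key j i l (by linarith) (by linarith) (by linarith) ?_ hij.symm hli.symm hlj.symm
    ext t
    simp only [Set.mem_insert_iff, Set.mem_singleton_iff]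
    tauto
  · refine key l i j (by linarith) (by linarith) (by linarith) ?_ hli hij hlj
    ext t
    simp only [Set.mem_insert_iff, Set.mem_singleton_iff]
    tauto

end Pool.Agent.Helper35.KC
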