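import Pool.Agent.Helper53.KC.Goals

/-!
# KC-THK: few small circuits and few large hyperplanes
-/

namespace Pool.Agent.Helper35.KC

open Finset Pool.Agent.Helper53.KC

variable {n : ℕ}

theorem hyp_flat {r : ℕ} {M : Matroid (Fin n)} (hM : Rk r M) {H : Finset (Fin n)}
    (hH : M.IsCocircuit ((Hᶜ : Finset (Fin n)) : Set (Fin n))) :
    M.closure (H : Set (Fin n)) = H ∧ ∃ I : Finset (Fin n), I ⊆ H ∧ I.card + 1 ≤ r ∧
      M.closure (I : Set (Fin n)) = H := by
  obtain ⟨hE, hr⟩ := hM
  rw [Matroid.isCocircuit_iff_minimal_compl_nonspanning] at hH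
  have e1 : M.E \ ((Hᶜ : Finset (Fin n)) : Set (Fin n)) = H := by
    rw [hE]; ext x; simp
  have hns : ¬ M.Spanning (H : Set (Fin n)) := by
    have := hH.prop
    rwa [e1] at this
  have hHE : (H : Set (Fin n)) ⊆ M.E := by rw [hE]; exact Set.subset_univ _
  have hsub : (H : Set (Fin n)) ⊆ M.closure H := M.subset_closure _ hHE
  have hcl : M.closure (H : Set (Fin n)) = H := by
    apply Set.Subset.antisymm _ hsub
    have h1 := hH.le_of_le (y := (M.closure (H : Set (Fin n)))ᶜ) (by
      have e2 : M.E \ (M.closure (H : Set (Fin n)))ᶜ = M.closure (H : Set (Fin n)) := by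
        rw [hE]; ext x; simp
      rw [e2, Matroid.closure_spanning_iff]
      exact hns) (by
        intro x hx
        rw [Set.mem_compl_iff] at hx
        simp only [coe_compl, Set.mem_compl_iff]
        exact fun h => hx (hsub h))
    intro x hx
    by_contra hxH
    have h2 : x ∈ ((Hᶜ : Finset (Fin n)) : Set (Fin n)) := by simpa using hxH
    exact h1 h2 hx
  refine ⟨hcl, ?_⟩
  obtain ⟨I, hI⟩ := M.exists_isBasis (H : Set (Fin n)) hHE
  have hIH := hI.subset
  refine ⟨(Set.toFinite I).toFinset, ?_, ?_, ?_⟩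
  · intro x hx
    rw [Set.Finite.mem_toFinset] at hx
    exact_mod_cast hIH hx
  · have h1 := hI.encard_eq_eRk
    rw [Matroid.spanning_iff_eRk_le hHE, not_le, hr, ← h1] at hns
    rw [(Set.toFinite I).encard_eq_coe_toFinset_card] at hns
    have h3 : (Set.toFinite I).toFinset.card < r := by exact_mod_cast hns
    omega
  · rw [Set.Finite.coe_toFinset, hI.closure_eq_closure, hcl]

theorem thH_bound (r t i : ℕ) (M : Matroid (Fin n)) (hM : Rk r M) :
    (thH r t M).card * t.choose i ≤ 2 ^ n := by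
  classical
  have key : ∀ H ∈ thH r t M, ∃ J : Finset (Fin n), J ⊆ H ∧ J.card = t ∧
      ∀ T ⊆ J, M.closure ((H \ T : Finset (Fin n)) : Set (Fin n)) = H := by
    intro H hH
    rw [thH, mem_filter] at hH
    obtain ⟨_, hco, hcard⟩ := hH
    obtain ⟨hcl, I, hIH, hIr, hIcl⟩ := hyp_flat hM hco
    obtain ⟨J, hJ, hJt⟩ := exists_subset_card_eq (s := H \ I) (n := t) (by
      rw [card_sdiff_of_subset hIH]; omega)
    refine ⟨J, hJ.trans sdiff_subset, hJt, ?_⟩
    intro T hT
    apply Set.Subset.antisymm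
    · refine (M.closure_mono ?_).trans hcl.le
      exact_mod_cast (sdiff_subset : H \ T ⊆ H)
    · rw [← hIcl]
      apply M.closure_mono
      intro x hx
      rw [mem_coe] at hx
      rw [mem_coe, mem_sdiff]
      refine ⟨hIH hx, fun hxT => ?_⟩
      exact (mem_sdiff.1 (hJ (hT hxT))).2 hx
  choose! J hJ1 hJ2 hJ3 using key
  have h1 : (thH r t M).card * t.choose i =
      ((thH r t M).sigma (fun H => powersetCard i (J H))).card := by
    rw [card_sigma, sum_congr rfl (fun H hH => by rw [card_powersetCard, hJ2 H hH]), sum_const,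
      smul_eq_mul]
  rw [h1]
  have h2 : (univ : Finset (Finset (Fin n))).card = 2 ^ n := by simp
  rw [← h2]
  apply card_le_card_of_injOn (fun p => p.1 \ p.2) (fun _ _ => mem_univ _)
  rintro ⟨H1, T1⟩ h1' ⟨H2, T2⟩ h2' heq
  rw [mem_coe, mem_sigma, mem_powersetCard] at h1' h2'
  simp only at h1' h2' heq
  have e1 := hJ3 H1 h1'.1 T1 h1'.2.1
  have e2 := hJ3 H2 h2'.1 T2 h2'.2.1
  rw [heq, e2] at e1
  have hHH : H1 = H2 := by exact_mod_cast e1.symm
  subst hHH
  have hTT : T1 = T2 := by
    have a1 : T1 ⊆ H1 := h1'.2.1.trans (hJ1 H1 h1'.1)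
    have a2 : T2 ⊆ H1 := h2'.2.1.trans (hJ1 H1 h1'.1)
    rw [← Finset.sdiff_sdiff_eq_self a1, ← Finset.sdiff_sdiff_eq_self a2, heq]
  rw [hTT]

theorem thk : ThkStmt := by
  classical
  intro n r t i M hM
  refine ⟨thH_bound r t i M hM, ?_⟩
  have hrn : r ≤ n := by
    have h := M.eRank_le_encard_ground
    rw [hM.1, hM.2] at h
    simpa using h
  have hdual : Rk (n - r) M✶ := by
    refine ⟨by rw [Matroid.dual_ground]; exact hM.1, ?_⟩
    have h := M.eRank_add_eRank_dual
    rw [hM.1, hM.2] at h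
    have h2 : (Set.univ : Set (Fin n)).encard = (n : ℕ∞) := by simp
    rw [h2] at h
    have hne : M✶.eRank ≠ ⊤ := by
      intro htop
      rw [htop] at h
      simp at h
    obtain ⟨e, he⟩ := ENat.ne_top_iff_exists.1 hne
    rw [← he] at h ⊢
    have h3 : r + e = n := by exact_mod_cast h
    have h4 : e = n - r := by omega
    rw [h4]
  refine le_trans ?_ (thH_bound (n - r) t i M✶ hdual)
  apply Nat.mul_le_mul_right
  apply card_le_card_of_injOn (fun C => Cᶜ)
  · intro C hC
    rw [mem_coe, thC, mem_filter] at hC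
    rw [mem_coe, thH, mem_filter]
    refine ⟨mem_univ _, ?_, ?_⟩
    · simp only [compl_compl]
      exact hC.2.1.isCocircuit
    · have h1 : C.card ≤ n := by simpa using card_le_univ C
      simp only [card_compl, Fintype.card_fin]
      omega
  · intro a _ b _ hab
    exact compl_injective hab

end Pool.Agent.Helper35.KC
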